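import Pool.Agent.Helper37.RG3.Goals

set_option autoImplicit false

namespace Pool.Agent.Helper71.RG3

open Finset Pool.Agent.Helper37.RG3

theorem cnn : CNN := by
  intro V _ _ G S
  constructor
  · intro h
    obtain ⟨x⟩ := h.nonempty
    refine ⟨⟨x.1, by simpa using x.2⟩, ?_⟩
    intro P hP hne hPS
    obtain ⟨p, hp⟩ := hne
    obtain ⟨q, hq, hqP⟩ : ∃ q ∈ S, q ∉ P := by
      by_contra hc
      push Not at hc
      exact hPS (Finset.Subset.antisymm hP hc)
    obtain ⟨w⟩ := h.preconnected ⟨p, by simpa using hP hp⟩ ⟨q, by simpa using hq⟩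
    obtain ⟨d, _, hd1, hd2⟩ := w.exists_boundary_dart {v | v.1 ∈ P} hp hqP
    refine ⟨d.fst.1, hd1, d.snd.1, ?_, ?_⟩
    · rw [mem_sdiff]
      exact ⟨by simpa using d.snd.2, hd2⟩
    · exact d.adj
  · rintro ⟨⟨x, hx⟩, hcon⟩
    have hxS : x ∈ (↑S : Set V) := by simpa using hx
    have key : ∀ v (hv : v ∈ (↑S : Set V)),
        (G.induce (↑S : Set V)).Reachable ⟨x, hxS⟩ ⟨v, hv⟩ := by
      classical
      by_contra hc
      push Not at hc
      obtain ⟨v, hv, hvr⟩ := hc
      let P : Finset V := S.filter fun v => ∃ hv : v ∈ (↑S : Set V),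
        (G.induce (↑S : Set V)).Reachable ⟨x, hxS⟩ ⟨v, hv⟩
      have hxP : x ∈ P := by
        simp only [P, mem_filter]
        exact ⟨hx, hxS, SimpleGraph.Reachable.refl _⟩
      have hvP : v ∉ P := by
        simp only [P, mem_filter]
        rintro ⟨_, _, h⟩
        exact hvr h
      obtain ⟨p, hp, q, hq, hpq⟩ := hcon P (Finset.filter_subset _ _) ⟨x, hxP⟩ (by
        intro h
        rw [h] at hvP
        exact hvP (by simpa using hv))
      simp only [P, mem_filter, mem_sdiff] at hp hq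
      obtain ⟨hpS, hpS', hpr⟩ := hp
      obtain ⟨hqS, hqn⟩ := hq
      apply hqn
      have hqS' : q ∈ (↑S : Set V) := by simpa using hqS
      refine ⟨hqS, hqS', hpr.trans ?_⟩
      apply SimpleGraph.Adj.reachable
      exact hpq
    haveI : Nonempty (↑S : Set V) := ⟨⟨x, hxS⟩⟩
    refine ⟨?_⟩
    intro a b
    exact (key a.1 a.2).symm.trans (key b.1 b.2)

end Pool.Agent.Helper71.RG3
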